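import Pool.Agent.Helper35.PQF.St

/-!
Project PQF, module RA2: continuity.
-/

set_option autoImplicit false

open Filter Topology Matrix Set MeasureTheory
open scoped ENNReal ComplexOrder

namespace Pool.Agent.Helper39.PM

open Pool.Agent.Helper35.PM

/-- The involution of the disc exchanging `0` and `z`. -/
private noncomputable def ph (z w : ℂ) : ℂ := (z - w) / (1 - (starRingEnd ℂ) z * w)

private theorem mem_ball_iff' {z : ℂ} : z ∈ Metric.ball (0 : ℂ) 1 ↔ Complex.normSq z < 1 := by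
  rw [mem_ball_zero_iff, Complex.normSq_eq_norm_sq]
  constructor
  · intro h
    nlinarith [norm_nonneg z]
  · intro h
    nlinarith [norm_nonneg z]

private theorem key_id (z w : ℂ) : Complex.normSq (1 - (starRingEnd ℂ) z * w) -
    Complex.normSq (z - w) = (1 - Complex.normSq z) * (1 - Complex.normSq w) := by
  simp only [Complex.normSq_apply, Complex.sub_re, Complex.sub_im, Complex.one_re, Complex.one_im,
    Complex.mul_re, Complex.mul_im, Complex.conj_re, Complex.conj_im]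
  ring

private theorem den_ne {z w : ℂ} (hz : z ∈ Metric.ball (0 : ℂ) 1) (hw : w ∈ Metric.ball (0 : ℂ) 1) :
    1 - (starRingEnd ℂ) z * w ≠ 0 := by
  rw [mem_ball_iff'] at hz hw
  intro h
  have h1 := key_id z w
  rw [h, map_zero] at h1
  have h2 := Complex.normSq_nonneg (z - w)
  nlinarith [mul_pos (sub_pos.2 hz) (sub_pos.2 hw)]

private theorem ph_mem {z w : ℂ} (hz : z ∈ Metric.ball (0 : ℂ) 1)
    (hw : w ∈ Metric.ball (0 : ℂ) 1) : ph z w ∈ Metric.ball (0 : ℂ) 1 := by
  have hne := den_ne hz hw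
  rw [mem_ball_iff'] at hz hw ⊢
  have h1 := key_id z w
  have h3 : 0 < Complex.normSq (1 - (starRingEnd ℂ) z * w) := Complex.normSq_pos.2 hne
  rw [ph, Complex.normSq_div, div_lt_one h3]
  nlinarith [mul_pos (sub_pos.2 hz) (sub_pos.2 hw)]

private theorem ph_zero (z : ℂ) : ph z 0 = z := by
  simp [ph]

private theorem ph_ph {z w : ℂ} (hz : z ∈ Metric.ball (0 : ℂ) 1)
    (hw : w ∈ Metric.ball (0 : ℂ) 1) : ph z (ph z w) = w := by
  have hne := den_ne hz hw
  have hne2 := den_ne hz (ph_mem hz hw)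
  have hq : ph z w * (1 - (starRingEnd ℂ) z * w) = z - w := div_mul_cancel₀ _ hne
  show (z - ph z w) / (1 - (starRingEnd ℂ) z * ph z w) = w
  rw [div_eq_iff hne2]
  linear_combination (-1 : ℂ) * hq

private theorem ph_diff {z : ℂ} (hz : z ∈ Metric.ball (0 : ℂ) 1) :
    DifferentiableOn ℂ (ph z) (Metric.ball 0 1) := by
  unfold ph
  refine DifferentiableOn.div (by fun_prop) (by fun_prop) fun w hw => den_ne hz hw

private theorem ph_norm_symm (z w : ℂ) : ‖ph z w‖ = ‖ph w z‖ := by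
  unfold ph
  rw [norm_div, norm_div, norm_sub_rev z w]
  congr 1
  rw [← Complex.norm_conj]
  congr 1
  simp only [map_sub, map_mul, map_one, Complex.conj_conj]
  ring

/-- Harnack. -/
private theorem harn (hk : St_HK) {u : ℂ → ℝ} {j : ℂ → ℂ → ℝ} (h : Pot u j) {z p : ℂ}
    (hz : z ∈ Metric.ball (0 : ℂ) 1) (hp : p ∈ Metric.ball (0 : ℂ) 1) :
    u p ≤ (1 + ‖ph z p‖) / (1 - ‖ph z p‖) * u z := by
  obtain ⟨G, hG, hG1, hG2⟩ := h.2 z hz
  have hmaps : MapsTo (ph z) (Metric.ball 0 1) (Metric.ball 0 1) := fun w hw => ph_mem hz hw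
  have hd : DifferentiableOn ℂ (G ∘ ph z) (Metric.ball 0 1) := hG.comp (ph_diff hz) hmaps
  have hpos : ∀ w ∈ Metric.ball (0 : ℂ) 1, 0 ≤ ((G ∘ ph z) w).re := by
    intro w hw
    have h1 := (hG1 _ (hmaps hw)).2
    have h2 := h.1 _ (hmaps hw)
    show 0 ≤ (G (ph z w)).re
    linarith
  have h1 := (hk _ hd hpos (ph z p) (hmaps hp)).1
  have e1 : (G ∘ ph z) (ph z p) = G p := by
    show G (ph z (ph z p)) = G p
    rw [ph_ph hz hp]
  have e2 : (G ∘ ph z) 0 = G z := by
    show G (ph z 0) = G z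
    rw [ph_zero]
  rw [e1, e2, hG2] at h1
  exact ((hG1 p hp).2).trans h1

theorem ra2 (hk : St_HK) : St_RA2 := by
  intro u j h p hp
  have hup : 0 < u p := by linarith [h.1 p hp]
  -- the distance tends to zero
  have hc : ContinuousWithinAt (fun z => ph p z) (Metric.ball 0 1) p :=
    (ph_diff hp).continuousOn p hp
  have h0 : ph p p = 0 := by simp [ph]
  have hk0 : Tendsto (fun z => ‖ph p z‖) (𝓝[Metric.ball 0 1] p) (𝓝 0) := by
    have := hc.norm
    rw [ContinuousWithinAt, h0, norm_zero] at this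
    exact this
  have hup1 : Tendsto (fun z => (1 + ‖ph p z‖) / (1 - ‖ph p z‖) * u p)
      (𝓝[Metric.ball 0 1] p) (𝓝 (u p)) := by
    have h1 : Tendsto (fun z => (1 + ‖ph p z‖) / (1 - ‖ph p z‖) * u p)
        (𝓝[Metric.ball 0 1] p) (𝓝 ((1 + 0) / (1 - 0) * u p)) :=
      ((tendsto_const_nhds.add hk0).div (tendsto_const_nhds.sub hk0) (by norm_num)).mul_const _
    simpa using h1
  have hlo1 : Tendsto (fun z => (1 - ‖ph p z‖) / (1 + ‖ph p z‖) * u p)
      (𝓝[Metric.ball 0 1] p) (𝓝 (u p)) := by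
    have h1 : Tendsto (fun z => (1 - ‖ph p z‖) / (1 + ‖ph p z‖) * u p)
        (𝓝[Metric.ball 0 1] p) (𝓝 ((1 - 0) / (1 + 0) * u p)) :=
      ((tendsto_const_nhds.sub hk0).div (tendsto_const_nhds.add hk0) (by norm_num)).mul_const _
    simpa using h1
  refine tendsto_of_tendsto_of_tendsto_of_le_of_le' hlo1 hup1 ?_ ?_
  · filter_upwards [self_mem_nhdsWithin] with z hz
    have h1 := harn hk h hz hp
    have hm := ph_mem hz hp
    rw [mem_ball_zero_iff] at hm
    rw [ph_norm_symm z p] at h1 hm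
    have h2 : 0 < 1 - ‖ph p z‖ := by linarith
    have h3 : 0 < 1 + ‖ph p z‖ := by positivity
    rw [div_mul_eq_mul_div, div_le_iff₀ h3]
    rw [div_mul_eq_mul_div, le_div_iff₀ h2] at h1
    linarith
  · filter_upwards [self_mem_nhdsWithin] with z hz
    exact harn hk h hp hz

end Pool.Agent.Helper39.PM
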