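import Pool.Agent.Helper35.PQF.St2

/-! Module F4 of project PQF: the entropy weighted form of the first theorem. -/

set_option autoImplicit false

open Filter Topology Matrix Set MeasureTheory
open scoped ENNReal ComplexOrder

namespace Pool.Agent.Helper39.PM

open Pool.Agent.Helper35.PM

theorem zt_mem (t : ℝ) : zt t ∈ Metric.ball (0 : ℂ) 1 := by
  rw [mem_ball_zero_iff]
  unfold zt
  rw [Complex.norm_real, Real.norm_eq_abs]
  exact Real.abs_tanh_lt_one _

theorem zt_zero : zt 0 = 0 := by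
  unfold zt
  simp

theorem contDiff_tanh : ContDiff ℝ ((⊤ : ℕ∞) : WithTop ℕ∞) Real.tanh := by
  have h : Real.tanh = fun x => Real.sinh x / Real.cosh x := by
    funext x
    exact Real.tanh_eq_sinh_div_cosh x
  rw [h]
  exact Real.contDiff_sinh.div Real.contDiff_cosh (fun x => (Real.cosh_pos x).ne')

theorem contDiff_zt : ContDiff ℝ ((⊤ : ℕ∞) : WithTop ℕ∞) zt := by
  have h : zt = fun t => Complex.ofRealCLM (Real.tanh (t / 2)) := rfl
  rw [h]
  exact Complex.ofRealCLM.contDiff.comp (contDiff_tanh.comp (contDiff_id.div_const 2))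

theorem smooth_path {Γ : Type} [Group Γ] (f : ℂ → Γ →* SL) (hf : HolDisc f) (a b : ℝ) :
    SmoothPath (fun t => f (zt t)) a b := by
  refine ⟨fun γ i j => ?_, fun t _ => hf.2 _ (zt_mem t)⟩
  have h1 : ContDiffOn ℂ ((⊤ : ℕ∞) : WithTop ℕ∞) (fun z : ℂ => (f z γ : Mat) i j)
      (Metric.ball 0 1) := (hf.1 γ i j).contDiffOn Metric.isOpen_ball
  have h2 : ContDiffOn ℝ ((⊤ : ℕ∞) : WithTop ℕ∞) (fun z : ℂ => (f z γ : Mat) i j)
      (Metric.ball 0 1) := h1.restrict_scalars ℝ
  exact h2.comp contDiff_zt.contDiffOn (fun t _ => zt_mem t)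

/-- A function with `u s ≤ exp |s - t| u t` is continuous. -/
theorem continuous_of_harnack (u : ℝ → ℝ) (h : ∀ s t, u s ≤ Real.exp |s - t| * u t) :
    Continuous u := by
  rw [continuous_iff_continuousAt]
  intro t
  have e1 : Tendsto (fun s => Real.exp (-|s - t|) * u t) (𝓝 t) (𝓝 (u t)) := by
    have : Continuous (fun s => Real.exp (-|s - t|) * u t) := by fun_prop
    simpa using this.tendsto t
  have e2 : Tendsto (fun s => Real.exp |s - t| * u t) (𝓝 t) (𝓝 (u t)) := by
    have : Continuous (fun s => Real.exp |s - t| * u t) := by fun_prop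
    simpa using this.tendsto t
  refine tendsto_of_tendsto_of_tendsto_of_le_of_le e1 e2 (fun s => ?_) (fun s => h s t)
  have h1 := h t s
  rw [abs_sub_comm] at h1
  calc Real.exp (-|s - t|) * u t ≤ Real.exp (-|s - t|) * (Real.exp |s - t| * u s) := by
        gcongr
    _ = u s := by
        rw [← mul_assoc, ← Real.exp_add]
        simp

theorem lint_psi (ψ : ℝ → ℝ) (hc : Continuous ψ) (h0 : ∀ t, 0 ≤ ψ t) (L : ℝ) (hL : 0 ≤ L) :
    ∫⁻ t in Ioo 0 L, ENNReal.ofReal (ψ t) = ENNReal.ofReal (∫ t in (0 : ℝ)..L, ψ t) := by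
  rw [intervalIntegral.integral_of_le hL, integral_Ioc_eq_integral_Ioo]
  rw [ofReal_integral_eq_lintegral_ofReal]
  · exact (hc.integrableOn_Icc).mono_set Ioo_subset_Icc_self
  · exact Eventually.of_forall h0

theorem f4 (qf : St_QF) (po : St_PO) (ge1 : St_GE1) (_ge2 : St_GE2) (ge3 : St_GE3) (cs : St_CS)
    (f1 : St_F1) : St_F4 := by
  intro g hg U hU f hf L hL
  have hF : ∀ z ∈ Metric.ball (0 : ℂ) 1, Facts (f z) := fun z hz => qf g hg (f z) (hf.2 z hz)
  have hP := po (SurfaceGroup g) f U hf.1 hF (fun z hz => hU (f z) (hf.2 z hz))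
  rcases hL.eq_or_lt with h0 | hL0
  · subst h0
    refine (sInf_le ?_ : pressureDist U (f 0) (f (zt 0)) ≤ 0).trans zero_le
    rw [zt_zero]
    exact PressureLE.conj _ _ 1 (fun γ => Or.inl (by simp))
  obtain ⟨g1, g2, g3, g4⟩ := ge1 _ _ hP
  have hpos : ∀ t, 0 < ent (f (zt t)) := fun t => (hF _ (zt_mem t)).2.1
  have hle : ∀ t, ent (f (zt t)) ≤ 2 := fun t => (hF _ (zt_mem t)).2.2.1
  by_cases hc : ∃ t₀, (1 : ℝ) / ent (f (zt t₀)) = 1 / 2
  · obtain ⟨t₀, ht₀⟩ := hc
    have key : ∀ t, 2 - ent (f (zt t)) ≤ 0 := by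
      intro t
      have h1 := g2 t t₀
      simp only [ht₀, sub_self, mul_zero] at h1
      have h2 : (1 : ℝ) / ent (f (zt t)) ≤ 1 / 2 := by linarith
      have h3 := (one_div_le_one_div (hpos t) (by norm_num : (0 : ℝ) < 2)).1 h2
      linarith
    have h := (f1 g hg U hU f hf L 0 hL (fun t _ => key t)).2
    refine h.trans ?_
    simp
  · push Not at hc
    have hlt : ∀ t, (1 : ℝ) / 2 < 1 / ent (f (zt t)) := fun t =>
      lt_of_le_of_ne (g4 t t).2 (fun h => hc t h.symm)
    have hlt2 : ∀ t, ent (f (zt t)) < 2 := fun t =>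
      (one_div_lt_one_div (by norm_num) (hpos t)).1 (hlt t)
    obtain ⟨q, hq, hq1, hq2⟩ := ge3 (fun t => 1 / ent (f (zt t)))
        (fun t s => J (U (f (zt t))) (f (zt t)) (f (zt s))) L hL0
        hlt (fun t s => (g4 s t).1) g1 g2 g3
    simp only [one_div_one_div] at hq2
    have hψpos : ∀ t, 0 < Real.sqrt (2 - ent (f (zt t))) := fun t =>
      Real.sqrt_pos.2 (by linarith [hlt2 t])
    have huc : Continuous (fun t => 1 / ent (f (zt t))) := continuous_of_harnack _ g1
    have hec : Continuous (fun t => ent (f (zt t))) := by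
      have h := huc.inv₀ (fun t => (one_div_pos.2 (hpos t)).ne')
      refine h.congr (fun t => ?_)
      simp
    have hψc : Continuous (fun t => Real.sqrt (2 - ent (f (zt t)))) :=
      Real.continuous_sqrt.comp (continuous_const.sub hec)
    have hkc : Continuous (fun t => 1 / Real.sqrt (2 - ent (f (zt t)))) :=
      continuous_const.div hψc (fun t => (hψpos t).ne')
    obtain ⟨q₁, hm, hs, hi⟩ := cs q
      (fun t => ENNReal.ofReal (1 / Real.sqrt (2 - ent (f (zt t))))) 0 L hq
      (ENNReal.continuous_ofReal.comp hkc).measurable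
      (fun t _ => ⟨by
        simp only [ne_eq, ENNReal.ofReal_eq_zero, not_le]
        exact one_div_pos.2 (hψpos t), ENNReal.ofReal_ne_top⟩)
    have hinv : ∀ t, (ENNReal.ofReal (1 / Real.sqrt (2 - ent (f (zt t)))))⁻¹ =
        ENNReal.ofReal (Real.sqrt (2 - ent (f (zt t)))) := by
      intro t
      rw [one_div, ENNReal.ofReal_inv_of_pos (hψpos t), inv_inv]
    simp only [hinv] at hi
    rw [lint_psi _ hψc (fun t => (hψpos t).le) L hL] at hi
    set S := ∫ t in (0 : ℝ)..L, Real.sqrt (2 - ent (f (zt t))) with hS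
    set a := Real.sqrt (2 - ent (f (zt 0))) with ha
    set b := Real.sqrt (2 - ent (f (zt L))) with hb
    have hS0 : 0 ≤ S := intervalIntegral.integral_nonneg hL (fun t _ => (hψpos t).le)
    have ha0 : 0 ≤ a := Real.sqrt_nonneg _
    have hb0 : 0 ≤ b := Real.sqrt_nonneg _
    have hlen : LengthLE U (fun t => f (zt t)) 0 L
        (ENNReal.ofReal (Real.sqrt (S * (S + a + b) / 2))) := by
      refine ⟨q₁, hm, fun t ht => ?_, hi.trans ?_⟩
      · rw [hs]
        exact hq1 t ht
      · calc (∫⁻ t in Ioo 0 L, ENNReal.ofReal (1 / Real.sqrt (2 - ent (f (zt t)))) * q t) ^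
                (1 / 2 : ℝ) * ENNReal.ofReal S ^ (1 / 2 : ℝ)
            ≤ ENNReal.ofReal ((S + a + b) / 2) ^ (1 / 2 : ℝ) *
              ENNReal.ofReal S ^ (1 / 2 : ℝ) := by
                gcongr
          _ = (ENNReal.ofReal ((S + a + b) / 2) * ENNReal.ofReal S) ^ (1 / 2 : ℝ) := by
                rw [ENNReal.mul_rpow_of_nonneg _ _ (by norm_num)]
          _ = ENNReal.ofReal (S * (S + a + b) / 2) ^ (1 / 2 : ℝ) := by
                rw [← ENNReal.ofReal_mul (by positivity)]
                congr 2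
                ring
          _ = ENNReal.ofReal (Real.sqrt (S * (S + a + b) / 2)) := by
                rw [ENNReal.ofReal_rpow_of_nonneg (by positivity) (by norm_num),
                  Real.sqrt_eq_rpow]
          _ ≤ _ := le_rfl
    have h := PressureLE.path (U := U) (fun t => f (zt t)) 0 L _ hL (smooth_path f hf 0 L) hlen
    simp only [zt_zero] at h
    exact sInf_le h

end Pool.Agent.Helper39.PM
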